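import Pool.Agent.K3h18.Erde.Perm

/-!
# Switching a pile of cycles into one Hamiltonian cycle
-/

set_option autoImplicit false
set_option linter.unusedSectionVars false

namespace Pool.Agent.K3h18.Erde

open Pool.Agent.K3h88.Erde Equiv Equiv.Perm

section

variable {T : Type} [Fintype T] [DecidableEq T] (S : Perm T) (B : ℕ) (τ : ℕ → T)

/-- layers, forward on even, backward on odd levels -/
def lay : Perm (T × ZMod B) where
  toFun p := (if Even p.2.val then S p.1 else S.symm p.1, p.2)
  invFun p := (if Even p.2.val then S.symm p.1 else S p.1, p.2)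
  left_inv p := by
    by_cases h : Even p.2.val <;> simp [h]
  right_inv p := by
    by_cases h : Even p.2.val <;> simp [h]

theorem lay_even (t : T) (w : ZMod B) (h : Even w.val) : lay S B (t, w) = (S t, w) := by
  simp [lay, h]

theorem lay_odd (t : T) (w : ZMod B) (h : ¬ Even w.val) : lay S B (t, w) = (S.symm t, w) := by
  simp [lay, h]

theorem lay_snd (p : T × ZMod B) : (lay S B p).2 = p.2 := rfl

/-- lower switching point -/
def xc (c : ℕ) : T × ZMod B := (if Even c then τ c else S (τ c), (c : ZMod B))

/-- upper switching point -/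
def yc (c : ℕ) : T × ZMod B := (if Even c then S (τ c) else τ c, (c : ZMod B) + 1)

/-- the switched permutation -/
def pj : ℕ → Perm (T × ZMod B)
  | 0 => lay S B
  | j + 1 => pj j * swap (xc S B τ j) (yc S B τ j)

theorem val_low {c : ℕ} (h : c + 1 < B) : (c : ZMod B).val = c := by
  have : NeZero B := ⟨by omega⟩
  exact ZMod.val_cast_of_lt (by omega)

theorem val_up {c : ℕ} (h : c + 1 < B) : ((c : ZMod B) + 1).val = c + 1 := by
  have : NeZero B := ⟨by omega⟩
  have h1 : (c : ZMod B) + 1 = ((c + 1 : ℕ) : ZMod B) := by push_cast; rfl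
  rw [h1]
  exact ZMod.val_cast_of_lt h

variable {S B τ}

theorem xc_ne_xc {c d : ℕ} (hc : c + 1 < B) (hd : d + 1 < B) (h : c ≠ d) :
    xc S B τ c ≠ xc S B τ d := by
  intro e
  have h1 := congrArg (fun p : T × ZMod B => p.2.val) e
  simp only [xc] at h1
  rw [val_low B hc, val_low B hd] at h1
  exact h h1

theorem yc_ne_yc {c d : ℕ} (hc : c + 1 < B) (hd : d + 1 < B) (h : c ≠ d) :
    yc S B τ c ≠ yc S B τ d := by
  intro e
  have h1 := congrArg (fun p : T × ZMod B => p.2.val) e
  simp only [yc] at h1
  rw [val_up B hc, val_up B hd] at h1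
  omega

theorem xc_ne_yc (hτ : ∀ c d, c + 1 < B → d + 1 < B → τ c = τ d → c = d) {c d : ℕ}
    (hc : c + 1 < B) (hd : d + 1 < B) : xc S B τ c ≠ yc S B τ d := by
  intro e
  have h1 := congrArg (fun p : T × ZMod B => p.2.val) e
  simp only [xc, yc] at h1
  rw [val_low B hc, val_up B hd] at h1
  subst h1
  have h2 := congrArg (fun p : T × ZMod B => p.1) e
  simp only [xc, yc] at h2
  by_cases h3 : Even d
  · have h4 : ¬ Even (d + 1) := by rw [Nat.even_add_one]; exact fun h => h h3
    rw [if_pos h3, if_neg h4] at h2
    have := hτ _ _ hc hd (S.injective h2)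
    omega
  · have h4 : Even (d + 1) := by rw [Nat.even_add_one]; exact h3
    rw [if_neg h3, if_pos h4] at h2
    have := hτ _ _ hc hd h2
    omega

theorem pj_formula (hτ : ∀ c d, c + 1 < B → d + 1 < B → τ c = τ d → c = d) :
    ∀ j, j + 1 ≤ B →
      (∀ c, c < j → pj S B τ j (xc S B τ c) = lay S B (yc S B τ c)) ∧
      (∀ c, c < j → pj S B τ j (yc S B τ c) = lay S B (xc S B τ c)) ∧
      (∀ p, (∀ c, c < j → p ≠ xc S B τ c ∧ p ≠ yc S B τ c) → pj S B τ j p = lay S B p) := by
  intro j
  induction j with
  | zero => intro _; exact ⟨fun c hc => absurd hc (by omega), fun c hc => absurd hc (by omega),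
      fun p _ => rfl⟩
  | succ j ih =>
    intro hj
    obtain ⟨h1, h2, h3⟩ := ih (by omega)
    refine ⟨?_, ?_, ?_⟩
    · intro c hc
      show pj S B τ j (swap (xc S B τ j) (yc S B τ j) (xc S B τ c)) = _
      by_cases e : c = j
      · subst e
        rw [swap_apply_left]
        apply h3
        intro d hd
        exact ⟨(xc_ne_yc hτ (by omega) (by omega)).symm, yc_ne_yc (by omega) (by omega) (by omega)⟩
      · rw [swap_apply_of_ne_of_ne (xc_ne_xc (by omega) (by omega) e)
          (xc_ne_yc hτ (by omega) (by omega))]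
        exact h1 c (by omega)
    · intro c hc
      show pj S B τ j (swap (xc S B τ j) (yc S B τ j) (yc S B τ c)) = _
      by_cases e : c = j
      · subst e
        rw [swap_apply_right]
        apply h3
        intro d hd
        exact ⟨xc_ne_xc (by omega) (by omega) (by omega), xc_ne_yc hτ (by omega) (by omega)⟩
      · rw [swap_apply_of_ne_of_ne (xc_ne_yc hτ (by omega) (by omega)).symm
          (yc_ne_yc (by omega) (by omega) e)]
        exact h2 c (by omega)
    · intro p hp
      show pj S B τ j (swap (xc S B τ j) (yc S B τ j) p) = _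
      rw [swap_apply_of_ne_of_ne (hp j (by omega)).1 (hp j (by omega)).2]
      exact h3 p (fun c hc => hp c (by omega))

/-- the lower levels are kept -/
theorem pj_low (hτ : ∀ c d, c + 1 < B → d + 1 < B → τ c = τ d → c = d) {j : ℕ}
    (hj : j + 1 ≤ B) (p : T × ZMod B) (hp : p.2.val ≤ j) : (pj S B τ j p).2.val ≤ j := by
  obtain ⟨h1, h2, h3⟩ := pj_formula (S := S) hτ j hj
  by_cases e : ∀ c, c < j → p ≠ xc S B τ c ∧ p ≠ yc S B τ c
  · rw [h3 p e, lay_snd]; exact hp
  · push Not at e
    obtain ⟨c, hc, e⟩ := e
    by_cases e1 : p = xc S B τ c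
    · rw [e1, h1 c hc, lay_snd]
      show ((c : ZMod B) + 1).val ≤ j
      rw [val_up B (by omega)]
      omega
    · rw [e e1, h2 c hc, lay_snd]
      show (c : ZMod B).val ≤ j
      rw [val_low B (by omega)]
      omega

theorem not_same (hτ : ∀ c d, c + 1 < B → d + 1 < B → τ c = τ d → c = d) {j : ℕ}
    (hj : j + 1 < B) : ¬ (pj S B τ j).SameCycle (xc S B τ j) (yc S B τ j) := by
  have : NeZero B := ⟨by omega⟩
  intro h
  obtain ⟨n, hn⟩ := h.exists_nat_pow_eq
  have key : ∀ n : ℕ, (((pj S B τ j) ^ n) (xc S B τ j)).2.val ≤ j := by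
    intro n
    induction n with
    | zero =>
      show (j : ZMod B).val ≤ j
      rw [val_low B hj]
    | succ n ih =>
      rw [pow_succ', Perm.mul_apply]
      exact pj_low hτ (by omega) _ ih
  have h1 := key n
  rw [hn] at h1
  have h2 : (yc S B τ j).2.val = j + 1 := val_up B hj
  omega

theorem lay_same (hS : ∀ x y, S.SameCycle x y) (t t' : T) (w : ZMod B) :
    (lay S B).SameCycle (t, w) (t', w) := by
  by_cases h : Even w.val
  · obtain ⟨n, hn⟩ := (hS t t').exists_nat_pow_eq
    refine ⟨(n : ℤ), ?_⟩
    rw [zpow_natCast]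
    have key : ∀ n : ℕ, ((lay S B) ^ n) (t, w) = ((S ^ n) t, w) := by
      intro n
      induction n with
      | zero => rfl
      | succ n ih => rw [pow_succ', Perm.mul_apply, ih, lay_even S B _ _ h, pow_succ' S,
          Perm.mul_apply]
    rw [key, hn]
  · obtain ⟨n, hn⟩ := (hS t' t).exists_nat_pow_eq
    refine ⟨(n : ℤ), ?_⟩
    rw [zpow_natCast]
    have key : ∀ n : ℕ, ((lay S B) ^ n) ((S ^ n) t', w) = (t', w) := by
      intro n
      induction n with
      | zero => rfl
      | succ n ih => rw [pow_succ, Perm.mul_apply, lay_odd S B _ _ h, pow_succ' S,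
          Perm.mul_apply, Equiv.symm_apply_apply, ih]
    rw [← hn, key]

theorem pj_same (hS : ∀ x y, S.SameCycle x y)
    (hτ : ∀ c d, c + 1 < B → d + 1 < B → τ c = τ d → c = d) :
    ∀ j, j + 1 ≤ B → (∀ (t t' : T) (w : ZMod B), (pj S B τ j).SameCycle (t, w) (t', w)) ∧
      (∀ p q : T × ZMod B, p.2.val ≤ j → q.2.val ≤ j → (pj S B τ j).SameCycle p q) := by
  intro j
  induction j with
  | zero =>
    intro hj
    have : NeZero B := ⟨by omega⟩
    refine ⟨fun t t' w => lay_same hS t t' w, ?_⟩
    rintro ⟨t, w⟩ ⟨t', w'⟩ h h'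
    have e : w = w' := by
      apply ZMod.val_injective B
      simp only at h h'
      omega
    subst e
    exact lay_same hS t t' w
  | succ j ih =>
    intro hj
    have : NeZero B := ⟨by omega⟩
    obtain ⟨h1, h2⟩ := ih (by omega)
    have hn := not_same (S := S) hτ (show j + 1 < B by omega)
    have hm : ∀ {p q : T × ZMod B}, (pj S B τ j).SameCycle p q →
        (pj S B τ (j + 1)).SameCycle p q := fun h => sameCycle_mono _ _ _ hn h
    have hxy : (pj S B τ (j + 1)).SameCycle (xc S B τ j) (yc S B τ j) := sameCycle_merge _ _ _ hn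
    refine ⟨fun t t' w => hm (h1 t t' w), ?_⟩
    have key : ∀ p : T × ZMod B, p.2.val ≤ j + 1 → (pj S B τ (j + 1)).SameCycle p (xc S B τ j) := by
      rintro ⟨t, w⟩ hp
      simp only at hp
      rcases Nat.lt_or_ge w.val (j + 1) with h | h
      · apply hm
        apply h2
        · simp only; omega
        · show (j : ZMod B).val ≤ j
          rw [val_low B (by omega)]
      · have e : w = (yc S B τ j).2 := by
          apply ZMod.val_injective B
          have h3 : (yc S B τ j).2.val = j + 1 := val_up B (by omega)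
          omega
        subst e
        exact (hm (h1 t (yc S B τ j).1 (yc S B τ j).2)).trans hxy.symm
    exact fun p q hp hq => (key p hp).trans (key q hq).symm

/-- The pile of cycles with all its switches is one Hamiltonian cycle. -/
theorem ladder (S : Perm T) (hS : ∀ x y, S.SameCycle x y) (hB : 2 ≤ B) (hT : 2 ≤ Fintype.card T)
    (hτ : ∀ c d, c + 1 < B → d + 1 < B → τ c = τ d → c = d) :
    IsHC {e : Sym2 (T × ZMod B) |
      (∃ t w, (¬ ∃ c, c < B - 1 ∧ t = τ c ∧ (w = (c : ZMod B) ∨ w = (c : ZMod B) + 1)) ∧
        e = s((t, w), (S t, w))) ∨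
      (∃ c, c < B - 1 ∧ (e = s((τ c, (c : ZMod B)), (τ c, (c : ZMod B) + 1)) ∨
        e = s((S (τ c), (c : ZMod B)), (S (τ c), (c : ZMod B) + 1))))} := by
  have : NeZero B := ⟨by omega⟩
  have hcard : 3 ≤ Fintype.card (T × ZMod B) := by
    rw [Fintype.card_prod, ZMod.card]
    nlinarith
  obtain ⟨h1, h2, h3⟩ := pj_formula (S := S) hτ (B - 1) (by omega)
  have hall : ∀ p q : T × ZMod B, (pj S B τ (B - 1)).SameCycle p q := by
    intro p q
    refine (pj_same hS hτ (B - 1) (by omega)).2 p q ?_ ?_
    · have := ZMod.val_lt p.2; omega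
    · have := ZMod.val_lt q.2; omega
  have hhc := isHC_of_perm (pj S B τ (B - 1)) hcard hall
  convert hhc using 1
  -- values of the permutation at the switching points
  have ex : ∀ c, c < B - 1 → s(xc S B τ c, pj S B τ (B - 1) (xc S B τ c)) =
      if Even c then s((τ c, (c : ZMod B)), (τ c, (c : ZMod B) + 1)) else
        s((S (τ c), (c : ZMod B)), (S (τ c), (c : ZMod B) + 1)) := by
    intro c hc
    rw [h1 c hc]
    by_cases h : Even c
    · have h' : ¬ Even ((c : ZMod B) + 1).val := by
        rw [val_up B (by omega), Nat.even_add_one]; exact fun h2 => h2 h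
      rw [if_pos h]
      simp only [xc, yc, if_pos h]
      rw [lay_odd S B _ _ h', Equiv.symm_apply_apply]
    · have h' : Even ((c : ZMod B) + 1).val := by
        rw [val_up B (by omega), Nat.even_add_one]; exact h
      rw [if_neg h]
      simp only [xc, yc, if_neg h]
      rw [lay_even S B _ _ h']
  have ey : ∀ c, c < B - 1 → s(yc S B τ c, pj S B τ (B - 1) (yc S B τ c)) =
      if Even c then s((S (τ c), (c : ZMod B)), (S (τ c), (c : ZMod B) + 1)) else
        s((τ c, (c : ZMod B)), (τ c, (c : ZMod B) + 1)) := by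
    intro c hc
    rw [h2 c hc]
    by_cases h : Even c
    · have h' : Even ((c : ZMod B)).val := by
        rw [val_low B (by omega)]; exact h
      rw [if_pos h]
      simp only [xc, yc, if_pos h]
      rw [lay_even S B _ _ h', Sym2.eq_swap]
    · have h' : ¬ Even ((c : ZMod B)).val := by
        rw [val_low B (by omega)]; exact h
      rw [if_neg h]
      simp only [xc, yc, if_neg h]
      rw [lay_odd S B _ _ h', Equiv.symm_apply_apply, Sym2.eq_swap]
  ext e
  constructor
  · rintro (⟨t, w, hn, rfl⟩ | ⟨c, hc, h⟩)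
    · by_cases hw : Even w.val
      · refine ⟨(t, w), ?_⟩
        rw [h3 (t, w), lay_even S B _ _ hw]
        intro c hc
        constructor
        · intro e
          simp only [xc, Prod.mk.injEq] at e
          have h4 : w.val = c := by rw [e.2, val_low B (by omega)]
          rw [if_pos (h4 ▸ hw)] at e
          exact hn ⟨c, hc, e.1, Or.inl e.2⟩
        · intro e
          simp only [yc, Prod.mk.injEq] at e
          have h4 : w.val = c + 1 := by rw [e.2, val_up B (by omega)]
          have h5 : ¬ Even c := by
            rw [h4, Nat.even_add_one] at hw; exact hw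
          rw [if_neg h5] at e
          exact hn ⟨c, hc, e.1, Or.inr e.2⟩
      · refine ⟨(S t, w), ?_⟩
        rw [h3 (S t, w), lay_odd S B _ _ hw, Equiv.symm_apply_apply, Sym2.eq_swap]
        intro c hc
        constructor
        · intro e
          simp only [xc, Prod.mk.injEq] at e
          have h4 : w.val = c := by rw [e.2, val_low B (by omega)]
          rw [if_neg (h4 ▸ hw)] at e
          exact hn ⟨c, hc, S.injective e.1, Or.inl e.2⟩
        · intro e
          simp only [yc, Prod.mk.injEq] at e
          have h4 : w.val = c + 1 := by rw [e.2, val_up B (by omega)]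
          have h5 : Even c := by
            rw [h4, Nat.even_add_one] at hw; exact not_not.1 hw
          rw [if_pos h5] at e
          exact hn ⟨c, hc, S.injective e.1, Or.inr e.2⟩
    · by_cases hce : Even c
      · rcases h with rfl | rfl
        · exact ⟨xc S B τ c, by rw [ex c hc, if_pos hce]⟩
        · exact ⟨yc S B τ c, by rw [ey c hc, if_pos hce]⟩
      · rcases h with rfl | rfl
        · exact ⟨yc S B τ c, by rw [ey c hc, if_neg hce]⟩
        · exact ⟨xc S B τ c, by rw [ex c hc, if_neg hce]⟩
  · rintro ⟨p, rfl⟩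
    by_cases hp : ∀ c, c < B - 1 → p ≠ xc S B τ c ∧ p ≠ yc S B τ c
    · left
      obtain ⟨t, w⟩ := p
      rw [h3 _ hp]
      by_cases hw : Even w.val
      · refine ⟨t, w, ?_, by rw [lay_even S B _ _ hw]⟩
        rintro ⟨c, hc, rfl, hcw⟩
        rcases hcw with rfl | rfl
        · apply (hp c hc).1
          rw [val_low B (by omega)] at hw
          simp only [xc, if_pos hw]
        · apply (hp c hc).2
          rw [val_up B (by omega), Nat.even_add_one] at hw
          simp only [yc, if_neg hw]
      · refine ⟨S.symm t, w, ?_, by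
          rw [lay_odd S B _ _ hw, Equiv.apply_symm_apply, Sym2.eq_swap]⟩
        rintro ⟨c, hc, ht, hcw⟩
        rw [Equiv.symm_apply_eq] at ht
        subst ht
        rcases hcw with rfl | rfl
        · apply (hp c hc).1
          rw [val_low B (by omega)] at hw
          simp only [xc, if_neg hw]
        · apply (hp c hc).2
          rw [val_up B (by omega), Nat.even_add_one, not_not] at hw
          simp only [yc, if_pos hw]
    · right
      push Not at hp
      obtain ⟨c, hc, hp⟩ := hp
      refine ⟨c, hc, ?_⟩
      by_cases e1 : p = xc S B τ c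
      · subst e1
        rw [ex c hc]
        by_cases h : Even c
        · rw [if_pos h]; exact Or.inl rfl
        · rw [if_neg h]; exact Or.inr rfl
      · rw [hp e1, ey c hc]
        by_cases h : Even c
        · rw [if_pos h]; exact Or.inr rfl
        · rw [if_neg h]; exact Or.inl rfl

end

end Pool.Agent.K3h18.Erde
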