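import Pool.Agent.K3h88.Erde.Stm

/-!
# Merging cycles of permutations, Hamiltonian cycles from permutations

General lemmas (used for the third cycle of the triple product in Erde's conjecture).
-/

set_option autoImplicit false

namespace Pool.Agent.K3h18.Erde

open Pool.Agent.K3h88.Erde Equiv Equiv.Perm

/-- Two different cycles are merged by a transposition. -/
theorem sameCycle_merge {V : Type} [Fintype V] [DecidableEq V] (f : Perm V) (a b : V)
    (h : ¬ f.SameCycle a b) : (f * swap a b).SameCycle a b := by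
  have key : ∀ n : ℕ, (f * swap a b).SameCycle b ((f ^ (n + 1)) a) := by
    intro n
    induction n with
    | zero => exact ⟨1, by simp⟩
    | succ n ih =>
      by_cases h1 : (f ^ (n + 1)) a = a
      · rw [pow_succ', Perm.mul_apply, h1]
        exact ⟨1, by simp⟩
      · have h2 : (f ^ (n + 1)) a ≠ b := by
          intro h3
          exact h ⟨((n + 1 : ℕ) : ℤ), by rw [zpow_natCast]; exact h3⟩
        refine ih.trans ⟨1, ?_⟩
        rw [zpow_one, Perm.mul_apply, swap_apply_of_ne_of_ne h1 h2, pow_succ' f (n + 1),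
          Perm.mul_apply]
  have h4 := key (orderOf f - 1)
  rw [Nat.sub_add_cancel (orderOf_pos f), pow_orderOf_eq_one] at h4
  exact h4.symm

/-- Merging keeps the old cycles connected. -/
theorem sameCycle_mono {V : Type} [Fintype V] [DecidableEq V] (f : Perm V) (a b : V)
    (h : ¬ f.SameCycle a b) {x y : V} (hxy : f.SameCycle x y) :
    (f * swap a b).SameCycle x y := by
  have hab := sameCycle_merge f a b h
  have step : ∀ z, (f * swap a b).SameCycle z (f z) := by
    intro z
    by_cases h1 : z = a
    · subst h1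
      exact hab.trans ⟨1, by simp⟩
    · by_cases h2 : z = b
      · subst h2
        exact hab.symm.trans ⟨1, by simp⟩
      · exact ⟨1, by rw [zpow_one, Perm.mul_apply, swap_apply_of_ne_of_ne h1 h2]⟩
  have key : ∀ n : ℕ, (f * swap a b).SameCycle x ((f ^ n) x) := by
    intro n
    induction n with
    | zero => exact ⟨0, by simp⟩
    | succ n ih =>
      rw [pow_succ', Perm.mul_apply]
      exact ih.trans (step _)
  obtain ⟨n, hn⟩ := hxy.exists_nat_pow_eq
  rw [← hn]
  exact key n

/-- The edges of a permutation with a single cycle form a Hamiltonian cycle. -/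
theorem isHC_of_perm {V : Type} [Fintype V] (π : Perm V) (hV : 3 ≤ Fintype.card V)
    (h : ∀ x y, π.SameCycle x y) : IsHC {e : Sym2 V | ∃ p, e = s(p, π p)} := by
  classical
  have hcyc : π.IsCycleOn ((Finset.univ : Finset V) : Set V) := by
    refine ⟨?_, ?_⟩
    · simp [Set.bijOn_univ, π.bijective]
    · intro x _ y _
      exact h x y
  obtain ⟨v0⟩ : Nonempty V := Fintype.card_pos_iff.1 (by omega)
  have hmod : ∀ m n : ℕ, (π ^ m) v0 = (π ^ n) v0 ↔ m ≡ n [MOD (Finset.univ : Finset V).card] :=
    fun m n => hcyc.pow_apply_eq_pow_apply (Finset.mem_univ v0)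
  have hpos : 0 < Fintype.card V := by omega
  refine ⟨Fintype.card V, fun j => (π ^ j) v0, ⟨hV, ?_, ?_⟩, ?_, ?_⟩
  · show (π ^ (Fintype.card V)) v0 = (π ^ 0) v0
    rw [hmod]
    rw [Finset.card_univ]
    simp [Nat.ModEq]
  · intro i hi j hj hij
    have h1 := (hmod i j).1 hij
    rw [Finset.card_univ] at h1
    exact Nat.ModEq.eq_of_lt_of_lt h1 hi hj
  · intro v
    obtain ⟨n, hn, hn'⟩ := hcyc.exists_pow_eq (Finset.mem_univ v0) (Finset.mem_univ v)
    exact ⟨n, by simpa using hn, hn'⟩
  · ext e
    constructor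
    · rintro ⟨p, rfl⟩
      obtain ⟨n, hn, hn'⟩ := hcyc.exists_pow_eq (Finset.mem_univ v0) (Finset.mem_univ p)
      refine ⟨n, by simpa using hn, ?_⟩
      show s(p, π p) = s((π ^ n) v0, (π ^ (n + 1)) v0)
      rw [pow_succ', Perm.mul_apply, hn']
    · rintro ⟨j, _, rfl⟩
      refine ⟨(π ^ j) v0, ?_⟩
      show s((π ^ j) v0, (π ^ (j + 1)) v0) = _
      rw [pow_succ', Perm.mul_apply]

end Pool.Agent.K3h18.Erde
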