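import Pool.Agent.K3h18.Erde.Perm

/-!
# The successor `sg` of the second cycle of the torus is a single cycle
-/

set_option autoImplicit false

namespace Pool.Agent.K3h18.Erde

open Pool.Agent.K3h88.Erde Equiv Equiv.Perm

/-- residue of a cast -/
theorem val_cast_mod (A B x : ℕ) : ((x : ZMod (A * B)).val) % B = x % B := by
  rw [ZMod.val_natCast]
  exact Nat.mod_mod_of_dvd x (Dvd.intro_left A rfl)

/-- `sg` at a special number -/
theorem sg_cast_special (A B x : ℕ) (h : x % B = B - 1) (hx : B - 1 ≤ x) :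
    sg A B (x : ZMod (A * B)) = ((x - (B - 1) : ℕ) : ZMod (A * B)) := by
  unfold sg
  rw [if_pos (by rw [val_cast_mod]; exact h), Nat.cast_sub hx]

/-- `sg` at a non special number -/
theorem sg_cast_not (A B x : ℕ) (h : x % B ≠ B - 1) :
    sg A B (x : ZMod (A * B)) = ((x + (B + 1) : ℕ) : ZMod (A * B)) := by
  unfold sg
  rw [if_neg (by rw [val_cast_mod]; exact h)]
  push_cast
  ring

theorem cast_add_mul (A B x k : ℕ) : ((x + k * (A * B) : ℕ) : ZMod (A * B)) = (x : ZMod (A * B)) := by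
  have h : ((A * B : ℕ) : ZMod (A * B)) = 0 := ZMod.natCast_self _
  rw [Nat.cast_add, Nat.cast_mul k (A * B), h, mul_zero, add_zero]

theorem sg_surjective (A B : ℕ) (hB : 2 ≤ B) (hBA : B ∣ A) (hA : 0 < A) :
    Function.Surjective (sg A B) := by
  have : NeZero (A * B) := ⟨by positivity⟩
  have hle : B ≤ A := Nat.le_of_dvd hA hBA
  intro y
  have hy : ((y.val : ℕ) : ZMod (A * B)) = y := ZMod.natCast_zmod_val y
  generalize y.val = x at hy
  subst hy
  by_cases h0 : x % B = 0
  · refine ⟨((x + (B - 1) : ℕ) : ZMod (A * B)), ?_⟩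
    have h1 : (x + (B - 1)) % B = B - 1 := by
      rw [Nat.add_mod, h0, zero_add, Nat.mod_mod, Nat.mod_eq_of_lt (by omega)]
    rw [sg_cast_special A B _ h1 (by omega)]
    congr 1
    omega
  · have h2 : 2 * B ≤ A * B := Nat.mul_le_mul_right B (by omega)
    refine ⟨((x + A * B - (B + 1) : ℕ) : ZMod (A * B)), ?_⟩
    have h1 : (x + A * B - (B + 1)) % B ≠ B - 1 := by
      intro h3
      have h4 : (x + A * B - (B + 1)) + (B + 1) = x + A * B := by omega
      have h5 : (x + A * B) % B = 0 := by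
        rw [← h4, Nat.add_mod, h3]
        have h6 : (B + 1) % B = 1 := by
          rw [Nat.add_mod_left, Nat.mod_eq_of_lt (by omega)]
        rw [h6, Nat.sub_add_cancel (by omega), Nat.mod_self]
      rw [Nat.add_mul_mod_self_right] at h5
      exact h0 h5
    rw [sg_cast_not A B _ h1]
    have h4 : (x + A * B - (B + 1)) + (B + 1) = x + 1 * (A * B) := by omega
    rw [h4, cast_add_mul]

theorem sg_bijective (A B : ℕ) (hB : 2 ≤ B) (hBA : B ∣ A) (hA : 0 < A) :
    Function.Bijective (sg A B) := by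
  have : NeZero (A * B) := ⟨by positivity⟩
  exact (sg_surjective A B hB hBA hA).bijective_of_finite

/-- `sg` as a permutation -/
noncomputable def sgP (A B : ℕ) (hB : 2 ≤ B) (hBA : B ∣ A) (hA : 0 < A) : Perm (ZMod (A * B)) :=
  Equiv.ofBijective (sg A B) (sg_bijective A B hB hBA hA)

theorem sgP_apply (A B : ℕ) (hB : 2 ≤ B) (hBA : B ∣ A) (hA : 0 < A) (t : ZMod (A * B)) :
    sgP A B hB hBA hA t = sg A B t := rfl

theorem mul_add_mod' (B u r : ℕ) (hr : r < B) : (B * u + r) % B = r := by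
  rw [Nat.mul_add_mod, Nat.mod_eq_of_lt hr]

/-- the run from a multiple of `B` -/
theorem run (A B : ℕ) (hB : 2 ≤ B) (hBA : B ∣ A) (hA : 0 < A) (u : ℕ) :
    ∀ r : ℕ, r ≤ B - 1 → (sgP A B hB hBA hA).SameCycle ((B * u : ℕ) : ZMod (A * B))
      ((B * (u + r) + r : ℕ) : ZMod (A * B)) := by
  intro r
  induction r with
  | zero => intro _; exact ⟨0, by simp⟩
  | succ r ih =>
    intro hr
    refine (ih (by omega)).trans ⟨1, ?_⟩
    rw [zpow_one, sgP_apply]
    have h1 : (B * (u + r) + r) % B ≠ B - 1 := by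
      rw [mul_add_mod' B (u + r) r (by omega)]
      omega
    rw [sg_cast_not A B _ h1]
    congr 1
    ring

theorem jump (A B : ℕ) (hB : 2 ≤ B) (hBA : B ∣ A) (hA : 0 < A) (u : ℕ) :
    (sgP A B hB hBA hA).SameCycle ((B * u : ℕ) : ZMod (A * B))
      ((B * (u + (B - 1)) : ℕ) : ZMod (A * B)) := by
  refine (run A B hB hBA hA u (B - 1) le_rfl).trans ⟨1, ?_⟩
  rw [zpow_one, sgP_apply]
  rw [sg_cast_special A B _ (mul_add_mod' B _ (B - 1) (by omega)) (by omega),
    Nat.add_sub_cancel]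

theorem jumps (A B : ℕ) (hB : 2 ≤ B) (hBA : B ∣ A) (hA : 0 < A) (k : ℕ) :
    (sgP A B hB hBA hA).SameCycle (0 : ZMod (A * B))
      ((B * (k * (B - 1)) : ℕ) : ZMod (A * B)) := by
  induction k with
  | zero => exact ⟨0, by simp⟩
  | succ k ih =>
    refine ih.trans ?_
    have h := jump A B hB hBA hA (k * (B - 1))
    have e : k * (B - 1) + (B - 1) = (k + 1) * (B - 1) := by ring
    rwa [e] at h

/-- `sg` is a single cycle. -/
theorem sg_single (A B : ℕ) (hB : 2 ≤ B) (hBA : B ∣ A) (hA : 0 < A)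
    (hc : Nat.Coprime (B - 1) A) (x y : ZMod (A * B)) : (sgP A B hB hBA hA).SameCycle x y := by
  have : NeZero (A * B) := ⟨by positivity⟩
  have zero_mul : ∀ u : ℕ, (sgP A B hB hBA hA).SameCycle (0 : ZMod (A * B))
      ((B * u : ℕ) : ZMod (A * B)) := by
    intro u
    -- `k (B - 1) = u mod A`
    obtain ⟨k, hk⟩ : ∃ k : ℕ, k * (B - 1) ≡ u [MOD A] := by
      have : NeZero A := ⟨by omega⟩
      let v : (ZMod A)ˣ := ZMod.unitOfCoprime (B - 1) hc
      refine ⟨((u : ZMod A) * ((v⁻¹ : (ZMod A)ˣ) : ZMod A)).val, ?_⟩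
      rw [← ZMod.natCast_eq_natCast_iff]
      push_cast [ZMod.natCast_zmod_val]
      have hv : ((v : (ZMod A)ˣ) : ZMod A) = ((B - 1 : ℕ) : ZMod A) := ZMod.coe_unitOfCoprime _ hc
      rw [← hv, mul_assoc, Units.inv_mul, mul_one]
    have h1 := jumps A B hB hBA hA k
    have h2 : ((B * (k * (B - 1)) : ℕ) : ZMod (A * B)) = ((B * u : ℕ) : ZMod (A * B)) := by
      rw [ZMod.natCast_eq_natCast_iff, mul_comm A B]
      exact Nat.ModEq.mul_left' B hk
    rwa [h2] at h1
  have zero_all : ∀ z : ZMod (A * B), (sgP A B hB hBA hA).SameCycle 0 z := by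
    intro z
    have hz : ((z.val : ℕ) : ZMod (A * B)) = z := ZMod.natCast_zmod_val z
    generalize z.val = m at hz
    subst hz
    have hr : m % B < B := Nat.mod_lt _ (by omega)
    obtain ⟨A', rfl⟩ : ∃ A', A = A' + 1 := ⟨A - 1, by omega⟩
    have hm : B * (m / B) + m % B = m := Nat.div_add_mod m B
    generalize m / B = q at hm
    generalize m % B = r at hm hr
    subst hm
    refine (zero_mul (q + A' * r)).trans ?_
    have h1 := run (A' + 1) B hB hBA hA (q + A' * r) r (by omega)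
    have h2 : ((B * (q + A' * r + r) + r : ℕ) : ZMod ((A' + 1) * B)) =
        ((B * q + r : ℕ) : ZMod ((A' + 1) * B)) := by
      have h3 : B * (q + A' * r + r) + r = (B * q + r) + r * ((A' + 1) * B) := by ring
      rw [h3, cast_add_mul]
    rwa [h2] at h1
  exact (zero_all x).symm.trans (zero_all y)

end Pool.Agent.K3h18.Erde
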