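import Pool.Agent.K3h18.Erde.Ladder
import Pool.Agent.K3h18.Erde.Sg

/-!
# The third cycle of the triple product
-/

set_option autoImplicit false

namespace Pool.Agent.K3h18.Erde

open Pool.Agent.K3h88.Erde Equiv Equiv.Perm

theorem tc_inj (A B : ℕ) (hB : 4 ≤ B) (hBA : B ∣ A) (hA : 0 < A) (c d : ℕ) (hc : c + 1 < B)
    (hd : d + 1 < B) (h : tc A B c = tc A B d) : c = d := by
  have hle : B ≤ A := Nat.le_of_dvd hA hBA
  have hN : B * B ≤ A * B := Nat.mul_le_mul_right B hle
  have e0 : B * (B - 2) < A * B := by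
    have : B * (B - 2) < B * B := Nat.mul_lt_mul_of_pos_left (by omega) (by omega)
    omega
  have e1 : ∀ c, c + 1 < B → B * c - 1 < A * B := by
    intro c hc
    have : B * c < B * B := Nat.mul_lt_mul_of_pos_left (by omega) (by omega)
    omega
  have inj : ∀ x y : ℕ, x < A * B → y < A * B → (x : ZMod (A * B)) = (y : ZMod (A * B)) → x = y := by
    intro x y hx hy hxy
    rw [ZMod.natCast_eq_natCast_iff] at hxy
    exact Nat.ModEq.eq_of_lt_of_lt hxy hx hy
  have ne : ∀ c : ℕ, c ≠ 0 → B * (B - 2) ≠ B * c - 1 := by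
    intro c hc h
    obtain ⟨c', rfl⟩ := Nat.exists_eq_succ_of_ne_zero hc
    have h1 : (B * (B - 2)) % B = 0 := Nat.mul_mod_right _ _
    have h2 : B * (c' + 1) - 1 = B * c' + (B - 1) := by
      rw [Nat.mul_add, Nat.mul_one]; omega
    rw [h, Nat.succ_eq_add_one, h2, mul_add_mod' B c' (B - 1) (by omega)] at h1
    omega
  unfold tc at h
  by_cases h1 : c = 0
  · by_cases h2 : d = 0
    · omega
    · rw [if_pos h1, if_neg h2] at h
      exact absurd (inj _ _ e0 (e1 d hd) h) (ne d h2)
  · by_cases h2 : d = 0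
    · rw [if_neg h1, if_pos h2] at h
      exact absurd (inj _ _ (e1 c hc) e0 h).symm (ne c h1)
    · rw [if_neg h1, if_neg h2] at h
      have h3 := inj _ _ (e1 c hc) (e1 d hd) h
      have h4 : 1 ≤ B * c := Nat.mul_pos (by omega) (by omega)
      have h5 : 1 ≤ B * d := Nat.mul_pos (by omega) (by omega)
      have h6 : B * c = B * d := by omega
      exact Nat.eq_of_mul_eq_mul_left (by omega) h6

/-- brick T0Z -/
theorem t0z : StmT0Z := by
  classical
  intro A B hB hBA hA hc
  have : NeZero (A * B) := ⟨Nat.mul_ne_zero (by omega) (by omega)⟩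
  have : NeZero B := ⟨by omega⟩
  have hle : B ≤ A := Nat.le_of_dvd hA hBA
  have hcard : 2 ≤ Fintype.card (ZMod (A * B)) := by
    rw [ZMod.card]
    nlinarith
  exact ladder (B := B) (τ := tc A B) (sgP A B (by omega) hBA hA)
    (sg_single A B (by omega) hBA hA hc) (by omega) hcard (tc_inj A B hB hBA hA)

end Pool.Agent.K3h18.Erde
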